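import Pool.Agent.H70.OQ.Targets

/-!
# OQ module ING: there is a good seed at the beginning
-/

set_option autoImplicit false

namespace Pool.Agent.H73.OQ.ING

open Pool.Agent.H6.NB Pool.Agent.H70.OQ

/-- The hidden children of all nodes are the strings of zeros. -/
def H0 (n : ℕ) : (k : ℕ) → Hid (Fin n → Bool) (Ys n) k
  | 0 => ()
  | k + 1 => (H0 n k, fun _ _ => false)

open Classical in
/-- The value of the seed at `false :: t`. -/
noncomputable def val (k : ℕ) (t : List Bool) : Bool :=
  if h : ∃ x : Σ n, Nn n k, nstr x.1 k x.2 = t then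
    sv (fun x : Fin h.choose.1 → Bool => !decide (x = fun _ => false)) k (H0 h.choose.1 k) h.choose.2
  else false

/-- The seed. -/
noncomputable def seed (k : ℕ) : List Bool → Bool
  | [] => false
  | true :: _ => false
  | false :: t => val k t

theorem nstr_inj (h2 : T_NST) (k : ℕ) (x y : Σ n, Nn n k) (h : nstr x.1 k x.2 = nstr y.1 k y.2) :
    x = y := by
  obtain ⟨n, p⟩ := x
  obtain ⟨m, q⟩ := y
  simp only at h
  have e1 := (h2 n k).1 p
  have e2 := (h2 m k).1 q
  rw [h, e2] at e1
  have hp : 0 < 2 ^ (k + 1) - 1 := by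
    have : 2 ≤ 2 ^ (k + 1) := by
      rw [pow_succ]
      have := Nat.one_le_two_pow (n := k)
      omega
    omega
  have e3 : m = n := Nat.eq_of_mul_eq_mul_left hp e1
  subst e3
  have := (h2 m k).2.1 p q h
  rw [this]

theorem val_nstr (h2 : T_NST) (k n : ℕ) (p : Nn n k) :
    val k (nstr n k p) = sv (fun x : Fin n → Bool => !decide (x = fun _ => false)) k (H0 n k) p := by
  have h : ∃ x : Σ n, Nn n k, nstr x.1 k x.2 = nstr n k p := ⟨⟨n, p⟩, rfl⟩
  have e : h.choose = ⟨n, p⟩ := nstr_inj h2 k _ ⟨n, p⟩ h.choose_spec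
  unfold val
  rw [dif_pos h, e]

theorem ing (h1 : T_NDV) (h2 : T_NST) (h3 : Pool.Agent.H6.NB.T_INI) : T_ING := by
  intro k
  refine ⟨seed k, fun s => ?_, fun n => ?_⟩
  · exact h3 s
  · have key := h1 k n (seed k) (fun x => !decide (x = fun _ => false)) (H0 n k)
      (fun p => val_nstr h2 k n p)
    refine ⟨List.ofFn (fun _ : Fin n => false), ⟨by simp, ?_⟩, ?_⟩
    · rw [key]
      simp
    · rintro u ⟨hu, hs⟩
      subst hu
      have e : u = List.ofFn (fun i : Fin u.length => u.get i) := (List.ofFn_get u).symm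
      rw [e, key] at hs
      have hs2 : (fun i : Fin u.length => u.get i) = fun _ => false := by simpa using hs
      rw [← hs2]
      exact e

end Pool.Agent.H73.OQ.ING
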