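import Pool.Agent.H70.OQ.Targets

/-!
# OQ module LAK: the universal machine is local
-/

set_option autoImplicit false

namespace Pool.Agent.H73.OQ.LAK

open Pool.Agent.H6.NB Pool.Agent.H70.OQ

/-- The statement depends only on the truth values at lists of allowed strings. -/
theorem alt_congr (R : List Bool → Prop) (k : ℕ) : ∀ (b : Bool) (P P' : List (List Bool) → Prop),
    (∀ ws, ws.length = k → (∀ w ∈ ws, R w) → (P ws ↔ P' ws)) → (Alt R b k P ↔ Alt R b k P') := by
  induction k with
  | zero =>
    intro b P P' h
    have := h [] rfl (by simp)
    cases b <;> simpa [Alt] using this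
  | succ k ih =>
    intro b P P' h
    have step : ∀ b' w, R w → (Alt R b' k (fun ws => P (w :: ws)) ↔
        Alt R b' k (fun ws => P' (w :: ws))) := by
      intro b' w hw
      refine ih b' _ _ fun ws hl hws => ?_
      refine h (w :: ws) (by simp [hl]) ?_
      intro v hv
      rcases List.mem_cons.1 hv with rfl | hv
      · exact hw
      · exact hws v hv
    cases b
    · simp only [Alt]
      refine forall_congr' fun w => ?_
      refine imp_congr_right fun hw => ?_
      exact step true w hw
    · simp only [Alt]
      refine exists_congr fun w => ?_
      refine and_congr_right fun hw => ?_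
      exact step false w hw

/-- The value of a decision tree depends only on the values of the oracle at short strings. -/
theorem eval_congr (m : ℕ) (O O' : List Bool → Bool) (h : ∀ w : List Bool, w.length ≤ m → O w = O' w) :
    ∀ T : DT, T.Short m → T.eval O = T.eval O'
  | DT.leaf _, _ => rfl
  | DT.node w l r, hT => by
    obtain ⟨h1, h2, h3⟩ := hT
    have hl := eval_congr m O O' h l h2
    have hr := eval_congr m O O' h r h3
    simp only [DT.eval, h w h1, hl, hr]

theorem lak : T_LAK := by
  intro k prog hs s O O' h
  unfold acck
  refine alt_congr _ k true _ _ fun ws hl hws => ?_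
  obtain ⟨_, m, hm, hsh⟩ := hs s ws hl hws
  have := eval_congr m O O' (fun w hw => h w ((Nat.pow_le_pow_left hw 2).trans hm)) _ hsh
  rw [this]

end Pool.Agent.H73.OQ.LAK
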